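import Pool.Agent.Run7.h951.BG.Fin
import Pool.Agent.Run7.h175.BG.LAPC
import Pool.Agent.Run7.h175.BG.MAX
import Pool.Agent.Run7.h305.BG.LAPP
import Pool.Agent.Run7.h313.BG.BFX
import Pool.Agent.Run7.h313.BG.NW
import Pool.Agent.Run7.h313.BG.ONB
import Pool.Agent.Run7.h313.BG.PD
import Pool.Agent.Run7.h631.BG.NU
import Pool.Agent.Run7.h951.BG.PAVG
import Pool.Agent.Run7.h951.BG.PPOS
import Pool.Agent.Run7.h951.BG.PSIG
import Pool.Agent.Run7.h849.BG.IDEAL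
import Pool.Agent.Run7.h849.BG.LAG

/-! MP_58ffb3_an, Q1: property (S) does not imply property (W), already in dimension one. The pieces of the proof are due
to helpers 175, 305, 313, 631, 793, 849 and 951. -/

open MeasureTheory Polynomial

namespace Pool.Agent.Results.MP_58ffb3_an.StrongNotWeak

open Pool.Agent.Run7.h951.BG

theorem result : ¬ StrongImpliesWeak ∧
    (∀ z, VK (Metric.closedBall (0 : ℂ) 1) z = ((Real.posLog ‖z‖ : ℝ) : EReal)) ∧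
    IsDdc (fun z => Real.posLog ‖z‖) sig ∧
    ∃ ν : Measure ℂ, IsFiniteMeasure ν ∧ ν (Metric.sphere (0 : ℂ) 1)ᶜ = 0 ∧
      (∀ p : ℂ[X], p ≠ 0 → 0 < ∫ z, ‖p.eval z‖ ^ 2 ∂ν) ∧ (∃ B : ℕ → ℂ → ℝ, ∀ k, IsBergman ν k (B k)) ∧
      ∀ B : ℕ → ℂ → ℝ, (∀ k, IsBergman ν k (B k)) → PropS ν B sig ∧
        ∀ j : ℕ, Real.log 2 / 2 * 2 ^ j ≤ (2 * ((2 ^ j : ℕ) : ℝ))⁻¹ * Real.log (B (2 ^ j) 0) := by
  have hRT := Run7.h631.BG.t_ROOT
  have hMAX := Pool.Agent.Run7.h175.BG.t_MAX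
  have hPOS := Pool.Agent.Run7.h951.P793.t_POS
  have hSIG := Pool.Agent.Run7.h951.P793.t_SIG
  have hLAPC := Pool.Agent.Run7.h175.BG.t_LAPC Pool.Agent.Run7.h305.BG.t_LAPP
  have hMASS := t_MASS (t_PD hRT) t_ONB t_BFX (Run7.h849.BG.t_IDEAL hRT) (Run7.h849.BG.t_LAG hRT) hRT
  have hLIM := t_LIM hMASS (Pool.Agent.Run7.h951.P793.t_AVG hRT) hSIG hRT
  obtain ⟨h1, h2⟩ := main hMAX hPOS hSIG hLAPC (Run7.h631.BG.t_NU1 hRT) (Run7.h631.BG.t_NU2 hRT)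
    (Run7.h631.BG.t_NU3 hRT) (t_PD hRT) t_ONB hLIM (t_NW hRT t_BFX)
  refine ⟨h1, vk_disc hMAX hPOS, ?_, h2⟩
  intro φ hφ hφc
  rw [hSIG.2.2 φ hφ.continuous]
  exact hLAPC φ hφ hφc

end Pool.Agent.Results.MP_58ffb3_an.StrongNotWeak
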